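import Mathlib

namespace Pool.Agent.Results.MP_f85992_lc.Counter

open Matrix Module Submodule

/-- `G` is a linear `(t₁, …, t_k)`-PIR code -/
def PIR {F : Type} [Field F] {k n : ℕ} (t : Fin k → ℕ) (G : Matrix (Fin k) (Fin n) F) : Prop :=
  Function.Injective (fun a => a ᵥ* G) ∧ ∀ j, ∃ R : Fin (t j) → Finset (Fin n),
    (∀ s s', s ≠ s' → Disjoint (R s) (R s')) ∧ ∀ s, Pi.single j 1 ∈ span F (Gᵀ '' R s)

def G : Matrix (Fin 5) (Fin 14) (ZMod 2) :=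
  !![0, 0, 0, 0, 0, 0, 0, 1, 1, 1, 1, 1, 1, 1; 1, 0, 0, 0, 1, 1, 0, 1, 0, 0, 0, 1, 1, 0;
    0, 1, 0, 0, 1, 0, 1, 0, 1, 0, 0, 1, 0, 1; 0, 0, 1, 0, 0, 1, 1, 0, 0, 1, 0, 0, 1, 1;
    0, 0, 0, 1, 1, 1, 1, 0, 0, 0, 1, 1, 1, 1]

def R (j : Fin 5) (s : ℕ) : Finset (Fin 14) :=
  (![[{0, 7}, {1, 8}, {2, 9}, {3, 10}, {4, 11}, {5, 12}, {6, 13}],
    [{0}, {1, 3, 4}, {2, 10, 12}, {5, 8, 13}, {6, 9, 11}],
    [{1}, {0, 3, 4}, {2, 10, 13}, {5, 9, 11}, {6, 7, 12}],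
    [{2}, {0, 3, 5}, {1, 10, 13}, {4, 8, 12}, {6, 7, 11}],
    [{3}, {0, 1, 4}, {2, 7, 12}, {5, 11, 13}, {6, 8, 9}]] j).getD s ∅

def t : Fin 5 → ℕ := ![7, 5, 5, 5, 5]

lemma good : PIR t G := by
  refine ⟨(injective_iff_map_eq_zero G.vecMulLinear).2 (by decide +kernel), fun j =>
    ⟨fun s => R j s, by revert j; decide +kernel, fun s => ?_⟩⟩
  have : ∀ j, ∀ s : Fin (t j), Pi.single j 1 = ∑ i ∈ R j s, Gᵀ i := by decide +kernel
  rw [this j s]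
  exact sum_mem fun i hi => subset_span ⟨i, hi, rfl⟩

lemma bad (H : Matrix (Fin 4) (Fin 7) (ZMod 2)) : ¬ PIR (fun _ => 3) H := by
  rintro ⟨-, h⟩
  let φ := H.mulVecLin
  have sq (x : Fin 7 → ZMod 2) : x * x = x :=
    funext fun i => (by decide : ∀ a : ZMod 2, a * a = a) _
  have key (j) : ∃ u ∈ LinearMap.ker φ, ∃ v ∈ LinearMap.ker φ, φ (u * v) = Pi.single j 1 := by
    obtain ⟨R, hR, h⟩ : ∃ R : Fin 3 → Finset (Fin 7), (∀ s s', s ≠ s' → Disjoint (R s) (R s')) ∧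
      ∀ s, Pi.single j 1 ∈ span (ZMod 2) (Hᵀ '' R s) := h j
    have : ∀ s, ∃ x : Fin 7 → ZMod 2, (∀ i, i ∉ R s → x i = 0) ∧ φ x = Pi.single j 1 := by
      intro s
      obtain ⟨c, hc⟩ := (mem_span_image_finset_iff_exists_fun' _).1 (h s)
      refine ⟨fun i => if i ∈ R s then c i else 0, fun i hi => if_neg hi, ?_⟩
      rw [← hc]
      funext r
      simp [φ, mulVec, dotProduct, mul_comm]
    choose x hx hφ using this
    have z (s s') (e : s ≠ s') : x s * x s' = 0 := funext fun i => by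
      by_cases k : i ∈ R s
      · simp [hx s' i (Finset.disjoint_left.1 (hR s s' e) k)]
      · simp [hx s i k]
    refine ⟨x 0 - x 1, by simp [hφ], x 0 - x 2, by simp [hφ], ?_⟩
    rw [sub_mul, mul_sub, mul_sub, z 0 2 (by decide), z 1 0 (by decide), z 1 2 (by decide), sq]
    simp [hφ]
  have top {S : Submodule (ZMod 2) (Fin 4 → ZMod 2)} (h : ∀ j, Pi.single j 1 ∈ S) : S = ⊤ := by
    rw [eq_top_iff, ← (Pi.basisFun (ZMod 2) (Fin 4)).span_eq, span_le]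
    rintro _ ⟨j, rfl⟩
    simpa using h j
  have hr : LinearMap.range φ = ⊤ := top fun j =>
    let ⟨_, _, _, _, e⟩ := key j
    ⟨_, e⟩
  have hk : finrank (ZMod 2) (LinearMap.ker φ) = 3 := by
    have := φ.finrank_range_add_finrank_ker
    rw [hr] at this
    simp at this
    omega
  let b := finBasisOfFinrankEq _ _ hk
  let w : Fin 3 → Fin 4 → ZMod 2 := fun i => φ (b (i + 1) * b (i + 2))
  have hb (i i') : φ (b i * b i') ∈ span (ZMod 2) (Set.range w) := by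
    rcases (by decide : ∀ i i' : Fin 3, i = i' ∨ ∃ k, (i = k + 1 ∧ i' = k + 2) ∨
      (i' = k + 1 ∧ i = k + 2)) i i' with rfl | ⟨k, ⟨rfl, rfl⟩ | ⟨rfl, rfl⟩⟩
    · rw [sq, (b i).2]; exact zero_mem _
    · exact subset_span ⟨k, rfl⟩
    · rw [mul_comm]; exact subset_span ⟨k, rfl⟩
  have hS : span (ZMod 2) (Set.range w) = ⊤ := top fun j => by
    obtain ⟨u, hu, v, hv, e⟩ := key j
    have eu := congrArg Subtype.val (b.sum_repr ⟨u, hu⟩)
    have ev := congrArg Subtype.val (b.sum_repr ⟨v, hv⟩)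
    simp only [coe_sum, coe_smul] at eu ev
    rw [← e, ← eu, ← ev, Finset.sum_mul_sum]
    simp only [map_sum, smul_mul_smul_comm, map_smul]
    exact sum_mem fun i _ => sum_mem fun i' _ => smul_mem _ _ (hb i i')
  have := finrank_range_le_card (R := ZMod 2) w
  rw [Set.finrank, hS] at this
  simp at this

theorem result : ∃ (k n : ℕ) (t : Fin (k + 1) → ℕ), 1 ≤ k ∧ Antitone t ∧ (∀ j, 1 ≤ t j) ∧
    t 0 ≤ n ∧ (∃ G : Matrix (Fin (k + 1)) (Fin n) (ZMod 2), PIR t G) ∧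
    ¬ ∃ H : Matrix (Fin k) (Fin (n - t 0)) (ZMod 2), PIR (fun j => ⌈(t j.succ : ℚ) / 2⌉₊) H := by
  refine ⟨4, 14, t, by decide, by decide, by decide, by decide, ⟨G, good⟩, ?_⟩
  have : (fun j : Fin 4 => ⌈(t j.succ : ℚ) / 2⌉₊) = fun _ => 3 := by
    funext j
    rw [show t j.succ = 5 by revert j; decide, Nat.ceil_eq_iff (by decide)]
    norm_num
  rw [this]
  exact fun ⟨H, h⟩ => bad H h

end Pool.Agent.Results.MP_f85992_lc.Counter
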